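import Pool.Agent.MP_10effd_pr.Final

set_option autoImplicit false

namespace Pool.Agent.Results.MP_10effd_pr.PolylogCover

/-- For every `0 < ε < 1` there is a constant `C` such that on every finite connected graph with
`n ≥ 2` vertices and from every start, some control strategy of the `ε`-time-biased walk has
expected cover time at most `C * |E| * (log n)^2`. -/
theorem result :
    ∀ ε : ℝ, 0 < ε → ε < 1 → ∃ C : ℝ, 0 < C ∧
    ∀ (V : Type) [Fintype V] [DecidableEq V] (G : SimpleGraph V) [DecidableRel G.Adj],
      2 ≤ Fintype.card V → G.Connected →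
      ∀ v₀ : V, ∃ f : V → Finset V → V, (∀ (u : V) (S : Finset V), G.Adj u (f u S)) ∧
        (∑' t : ℕ, ∑ p : V × Finset V,
          (if p.2 = Finset.univ then (0 : ENNReal) else
            (Nat.rec (motive := fun _ => V × Finset V → ENNReal)
              (fun q : V × Finset V => if q = (v₀, ({v₀} : Finset V)) then (1 : ENNReal) else 0)
              (fun (_ : ℕ) (μ : V × Finset V → ENNReal) (q : V × Finset V) =>
                ∑ r : V × Finset V, μ r *
                  (if G.Adj r.1 q.1 ∧ q.2 = insert q.1 r.2 then
                    ENNReal.ofReal ((1 - ε) / (G.degree r.1 : ℝ) +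
                      (if q.1 = f r.1 r.2 then ε else 0))
                  else 0))
              t) p))
          ≤ ENNReal.ofReal (C * (G.edgeFinset.card : ℝ)
              * (Real.log (Fintype.card V : ℝ)) ^ 2) := by
  intro ε h0 h1
  refine ⟨Pool.MP_10effd_pr.bigC ε, Pool.MP_10effd_pr.bigC_pos h0 h1, ?_⟩
  intro V _ _ G _ hn hG v₀
  have hnt : Nontrivial V := Fintype.one_lt_card_iff_nontrivial.mp (by omega)
  have hd : ∀ x, 0 < G.degree x := fun x => hG.preconnected.degree_pos_of_nontrivial x
  exact Pool.MP_10effd_pr.exists_policy h0 h1 hd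
    (fun m v => Pool.MP_10effd_pr.main_bound h0 h1 G hn hG hd m v) v₀

end Pool.Agent.Results.MP_10effd_pr.PolylogCover
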